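import Pool.Agent.Work.MP_097698_nt.Crit

/-!
# Cassels heights: large heights, for every `n` that is not a power of two

Let `n ≥ 1` have an odd prime factor, and let `m` be the product of its odd prime factors. Every
element of `𝒞_n` is `2 v / φ(rad n)` for some natural number `v`. Only finitely many such numbers
are missing from `𝒞_n` if and only if `n` is neither a prime nor twice a prime; and in that case
every `2 v / φ(rad n)` with `v ≥ m²` is in `𝒞_n`.
-/

namespace Pool.Agent.Results.MP_097698_nt.CofiniteCriterion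

open Pool.Agent.Work.MP_097698_nt

theorem result (n : ℕ) (h : (n.primeFactors \ {2}).Nonempty) :
    (∀ x ∈ casselsSet n, ∃ v : ℕ, x = 2 * (v : ℝ) / (Nat.totient (rd n) : ℝ)) ∧
    ({v : ℕ | 2 * (v : ℝ) / (Nat.totient (rd n) : ℝ) ∉ casselsSet n}.Finite ↔
      ∀ p : ℕ, p.Prime → n ≠ p ∧ n ≠ 2 * p) ∧
    ((∀ p : ℕ, p.Prime → n ≠ p ∧ n ≠ 2 * p) → ∀ v : ℕ,
      (∏ l ∈ n.primeFactors \ {2}, l) ^ 2 ≤ v →
        2 * (v : ℝ) / (Nat.totient (rd n) : ℝ) ∈ casselsSet n) :=
  crit_main n h

end Pool.Agent.Results.MP_097698_nt.CofiniteCriterion
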