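import Pool.Agent.Work.MP_097698_nt.OneP

/-!
# Cassels heights: the set `𝒞_n` for every composite `n` with at most one odd prime factor

Put `N = n / rad(n)`.

1. Let `p ≥ 5` be a prime and let `n` be any positive integer whose only odd prime factor is `p`,
   that is `n = 2^a p^b` with `a ≥ 0`, `b ≥ 1`, and `n` not `p` or `2p` (so that `N ≥ 2`). Then
   `𝒞_n` is the set of the numbers `(s_1 (p - s_1) + ... + s_N (p - s_N) + 2 p k) / (p - 1)` with
   integers `0 ≤ s_t ≤ p / 2` and `k ≥ 0`.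
2. If `3` is the only odd prime factor of `n` and `n` is not `3` or `6`, then `𝒞_n` is the set of
   all natural numbers.
3. `𝒞_4` is the set of the sums of two squares, and `𝒞_n` is the set of all natural numbers for
   `n = 2^a`, `a ≥ 3`.
-/

namespace Pool.Agent.Results.MP_097698_nt.OneOddPrime

open Pool.Agent.Work.MP_097698_nt

theorem result :
    (∀ n p : ℕ, p.Prime → 5 ≤ p → n.primeFactors \ {2} = {p} → n ≠ p → n ≠ 2 * p →
      casselsSet n = {x : ℝ | ∃ (s : Fin (n / rd n) → ℕ) (k : ℕ), (∀ t, 2 * s t ≤ p) ∧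
        x = ((∑ t, (s t : ℤ) * (p - s t) + 2 * (p : ℤ) * k : ℤ) : ℝ) / ((p : ℝ) - 1)}) ∧
    (∀ n : ℕ, n.primeFactors \ {2} = {3} → n ≠ 3 → n ≠ 6 →
      casselsSet n = {x : ℝ | ∃ k : ℕ, x = k}) ∧
    casselsSet 4 = {x : ℝ | ∃ a b : ℤ, x = (a : ℝ) ^ 2 + (b : ℝ) ^ 2} ∧
    (∀ a : ℕ, 3 ≤ a → casselsSet (2 ^ a) = {x : ℝ | ∃ k : ℕ, x = k}) :=
  ⟨fun _ _ hp hp5 h h1 h2 => oneP_main hp hp5 h h1 h2, fun _ h h1 h2 => three_main h h1 h2,
    four_main, fun _ ha => pow_main ha⟩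

end Pool.Agent.Results.MP_097698_nt.OneOddPrime
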