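import Pool.Agent.Work.MP_097698_nt.Two

/-!
# Cassels heights: the set `𝒞_n` for every `n` with exactly two odd prime factors

Let `p < q` be odd primes and let `n` be any positive integer whose odd prime factors are exactly
`p` and `q`, that is `n = 2^a p^b q^c` with `a ≥ 0` and `b, c ≥ 1`. Put `N = n / rad(n)`.
Then `𝒞_n` is the set of the numbers

  `(g_1 + ... + g_N + 2 k p q) / ((p - 1) (q - 1))`,

where `k ≥ 0` and, for every `t ≤ N`,
`g_t = p q s - q (c_1² + ... + c_q²) - p (r_1² + ... + r_p²) + s²`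
for the row sums `r_1, ..., r_p` and the column sums `c_1, ..., c_q` of a `p × q` matrix with
entries `0` and `1` (a Gale–Ryser pair) and `s = r_1 + ... + r_p`; the only combination left out is
`g_1 = ... = g_N = 0`, `k = 1`.
-/

namespace Pool.Agent.Results.MP_097698_nt.TwoOddPrimes

open Pool.Agent.Work.MP_097698_nt

theorem result (p q n : ℕ) (hp : p.Prime) (hq : q.Prime) (hp2 : p ≠ 2) (hpq : p < q)
    (hn : n.primeFactors \ {2} = {p, q}) :
    casselsSet n = {x : ℝ | ∃ (r : Fin (n / rd n) → Fin p → ℕ) (c : Fin (n / rd n) → Fin q → ℕ)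
      (k : ℕ), (∀ t, GaleRyser (r t) (c t)) ∧ ((∃ t, gap (r t) (c t) ≠ 0) ∨ k ≠ 1) ∧
      x = ((∑ t, gap (r t) (c t) + 2 * (p * q : ℤ) * k : ℤ) : ℝ)
        / (((p : ℝ) - 1) * ((q : ℝ) - 1))} :=
  two_main hp hq hp2 hpq hn

end Pool.Agent.Results.MP_097698_nt.TwoOddPrimes
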